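import Mathlib
import Pool.Agent.H50.PathGame

/-!
# One-player percolation games have a limit value

A percolation game on `ℤ^d` with stationary, uniformly bounded payoffs in which only one player
makes choices has a limit value: almost surely, for every initial state `z`, the `n`-stage values
`v_n(z)` converge.  Neither independence nor ergodicity of the payoffs is needed.
-/

set_option autoImplicit false

namespace Pool.Agent.Results.MP_5b044e_pr.OnePlayerLimit

open MeasureTheory Filter Topology

/-- A percolation game on `ℤ^d` with action sets `I` (Player 1, maximiser) and `J` (Player 2,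
minimiser) over the probability space `(Ω, P)`: measure preserving maps `shift z`, uniformly
bounded measurable stationary payoffs, and a transition map `step`. -/
structure PercolationGame (d : ℕ) (I J Ω : Type) [MeasurableSpace Ω] (P : Measure Ω) where
  /-- the maps `τ_z` -/
  shift : (Fin d → ℤ) → Ω → Ω
  measurePreserving : ∀ z, MeasurePreserving (shift z) P P
  shift_add : ∀ z z', shift (z + z') = shift z ∘ shift z'
  /-- the payoffs `g_ω(z,i,j)` -/
  payoff : Ω → (Fin d → ℤ) → I → J → ℝ
  measurable_payoff : ∀ z i j, Measurable fun ω => payoff ω z i j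
  bounded : ∃ C : ℝ, ∀ ω z i j, |payoff ω z i j| ≤ C
  stationary : ∀ z ω z' i j, payoff (shift z ω) z' i j = payoff ω (z + z') i j
  /-- the transition map `q` -/
  step : I → J → (Fin d → ℤ)

namespace PercolationGame

variable {d : ℕ} {I J Ω : Type} [MeasurableSpace Ω] {P : Measure Ω}

/-- The value of the `n`-stage game with the total (not averaged) payoff, for the initial state `z`,
by backward induction: Player 1 chooses `i`, Player 2 sees `i` and chooses `j`. -/
noncomputable def totalValue (G : PercolationGame d I J Ω P) (ω : Ω) : ℕ → (Fin d → ℤ) → ℝ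
  | 0, _ => 0
  | n + 1, z => ⨆ i : I, ⨅ j : J, (G.payoff ω z i j + G.totalValue ω n (z + G.step i j))

/-- The `n`-stage value `v_n^ω(z)`. -/
noncomputable def value (G : PercolationGame d I J Ω P) (n : ℕ) (ω : Ω) (z : Fin d → ℤ) : ℝ :=
  G.totalValue ω n z / n

/-- The total payoff along the sequence of action pairs `l` from the state `z`. -/
def totalPayoff (G : PercolationGame d I J Ω P) (ω : Ω) : (Fin d → ℤ) → List (I × J) → ℝ
  | _, [] => 0
  | z, a :: l => G.payoff ω z a.1 a.2 + G.totalPayoff ω (z + G.step a.1 a.2) l

/-- The set of average payoffs over all action sequences of length `n` from the state `z`. -/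
def averagePayoffs (G : PercolationGame d I J Ω P) (n : ℕ) (ω : Ω) (z : Fin d → ℤ) : Set ℝ :=
  {r | ∃ l : List (I × J), l.length = n ∧ G.totalPayoff ω z l / n = r}

end PercolationGame

open PercolationGame

variable {d : ℕ} {I J Ω : Type} [MeasurableSpace Ω] {P : Measure Ω}

lemma totalPayoff_eq (G : PercolationGame d I J Ω P) (ω : Ω) (l : List (I × J)) :
    ∀ z, G.totalPayoff ω z l =
      H50.PathGame.pay (fun a : I × J => G.step a.1 a.2) (fun z a => G.payoff ω z a.1 a.2) z l := by
  induction l with
  | nil => intro z; simp [totalPayoff, H50.PathGame.pay]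
  | cons a l ih => intro z; simp [totalPayoff, H50.PathGame.pay, ih]

lemma isGreatest_total [Finite I] [Nonempty I] [Nonempty J] [Subsingleton J]
    (G : PercolationGame d I J Ω P) (ω : Ω) (n : ℕ) : ∀ z,
    IsGreatest {r | ∃ l : List (I × J), l.length = n ∧ G.totalPayoff ω z l = r}
      (G.totalValue ω n z) := by
  obtain ⟨j0⟩ := ‹Nonempty J›
  have : Unique J := { default := j0, uniq := fun _ => Subsingleton.elim _ _ }
  induction n with
  | zero =>
    intro z
    refine ⟨⟨[], rfl, rfl⟩, ?_⟩
    rintro _ ⟨l, hl, rfl⟩
    rw [List.length_eq_zero_iff] at hl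
    subst hl
    exact le_rfl
  | succ n ih =>
    intro z
    have hval : G.totalValue ω (n + 1) z =
        ⨆ i : I, (G.payoff ω z i default + G.totalValue ω n (z + G.step i default)) := by
      simp only [totalValue, ciInf_unique]
    rw [hval]
    constructor
    · obtain ⟨i, hi⟩ := exists_eq_ciSup_of_finite
        (f := fun i : I => G.payoff ω z i default + G.totalValue ω n (z + G.step i default))
      obtain ⟨l, hl, hl2⟩ := (ih (z + G.step i default)).1
      refine ⟨(i, default) :: l, by simp [hl], ?_⟩
      rw [← hi]
      simp only [totalPayoff, hl2]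
    · rintro _ ⟨l, hl, rfl⟩
      obtain ⟨a, l', rfl⟩ := List.exists_cons_of_length_eq_add_one hl
      have h1 := (ih (z + G.step a.1 a.2)).2 ⟨l', by simpa using hl, rfl⟩
      have h2 := le_ciSup (Set.finite_range (fun i : I => G.payoff ω z i default +
        G.totalValue ω n (z + G.step i default))).bddAbove a.1
      have h3 : a.2 = default := Subsingleton.elim _ _
      simp only [totalPayoff]
      rw [h3] at h1 ⊢
      linarith

lemma isLeast_total [Finite J] [Nonempty J] [Nonempty I] [Subsingleton I]
    (G : PercolationGame d I J Ω P) (ω : Ω) (n : ℕ) : ∀ z,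
    IsLeast {r | ∃ l : List (I × J), l.length = n ∧ G.totalPayoff ω z l = r}
      (G.totalValue ω n z) := by
  obtain ⟨i0⟩ := ‹Nonempty I›
  have : Unique I := { default := i0, uniq := fun _ => Subsingleton.elim _ _ }
  induction n with
  | zero =>
    intro z
    refine ⟨⟨[], rfl, rfl⟩, ?_⟩
    rintro _ ⟨l, hl, rfl⟩
    rw [List.length_eq_zero_iff] at hl
    subst hl
    exact le_rfl
  | succ n ih =>
    intro z
    have hval : G.totalValue ω (n + 1) z =
        ⨅ j : J, (G.payoff ω z default j + G.totalValue ω n (z + G.step default j)) := by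
      simp only [totalValue, ciSup_unique]
    rw [hval]
    constructor
    · obtain ⟨j, hj⟩ := exists_eq_ciInf_of_finite
        (f := fun j : J => G.payoff ω z default j + G.totalValue ω n (z + G.step default j))
      obtain ⟨l, hl, hl2⟩ := (ih (z + G.step default j)).1
      refine ⟨(default, j) :: l, by simp [hl], ?_⟩
      rw [← hj]
      simp only [totalPayoff, hl2]
    · rintro _ ⟨l, hl, rfl⟩
      obtain ⟨a, l', rfl⟩ := List.exists_cons_of_length_eq_add_one hl
      have h1 := (ih (z + G.step a.1 a.2)).2 ⟨l', by simpa using hl, rfl⟩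
      have h2 := ciInf_le (Set.finite_range (fun j : J => G.payoff ω z default j +
        G.totalValue ω n (z + G.step default j))).bddBelow a.2
      have h3 : a.1 = default := Subsingleton.elim _ _
      simp only [totalPayoff]
      rw [h3] at h1 ⊢
      linarith

/-- **Main theorem.** In a percolation game on `ℤ^d` with finite nonempty action sets, one of which
is a singleton, almost surely the `n`-stage values converge, for all initial states.  The first two
clauses record that in this case the `n`-stage value is the maximal (respectively minimal) average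
payoff over all action sequences of length `n`. -/
theorem result (d : ℕ) (I J Ω : Type) [Finite I] [Nonempty I] [Finite J] [Nonempty J]
    [MeasurableSpace Ω] (P : Measure Ω) [IsProbabilityMeasure P]
    (G : PercolationGame d I J Ω P) :
    (Subsingleton J → ∀ n ω z, IsGreatest (G.averagePayoffs n ω z) (G.value n ω z)) ∧
    (Subsingleton I → ∀ n ω z, IsLeast (G.averagePayoffs n ω z) (G.value n ω z)) ∧
    (Subsingleton I ∨ Subsingleton J →
      ∀ᵐ ω ∂P, ∀ z : Fin d → ℤ, ∃ v : ℝ, Tendsto (fun n : ℕ => G.value n ω z) atTop (𝓝 v)) := by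
  have := Fintype.ofFinite (I × J)
  obtain ⟨C, hC⟩ := G.bounded
  refine ⟨?_, ?_, ?_⟩
  · intro _ n ω z
    obtain ⟨⟨l, hl, hl2⟩, h2⟩ := isGreatest_total G ω n z
    refine ⟨⟨l, hl, by rw [hl2]; rfl⟩, ?_⟩
    rintro _ ⟨l', hl', rfl⟩
    exact div_le_div_of_nonneg_right (h2 ⟨l', hl', rfl⟩) (Nat.cast_nonneg n)
  · intro _ n ω z
    obtain ⟨⟨l, hl, hl2⟩, h2⟩ := isLeast_total G ω n z
    refine ⟨⟨l, hl, by rw [hl2]; rfl⟩, ?_⟩
    rintro _ ⟨l', hl', rfl⟩
    exact div_le_div_of_nonneg_right (h2 ⟨l', hl', rfl⟩) (Nat.cast_nonneg n)
  · rintro (hI | hJ)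
    · have h := H50.PathGame.ae_all (P := P) (fun a : I × J => G.step a.1 a.2) G.shift
        G.measurePreserving (fun ω z a => - G.payoff ω z a.1 a.2)
        (fun z a => (G.measurable_payoff z a.1 a.2).neg) (C := C)
        (fun ω z a => by rw [abs_neg]; exact hC ω z a.1 a.2)
        (fun z ω z' a => by rw [G.stationary])
      filter_upwards [h] with ω hω z
      obtain ⟨v, hv⟩ := hω z (fun n => - G.totalValue ω n z) (fun n => by
        obtain ⟨⟨l, hl, hl2⟩, h2⟩ := isLeast_total G ω n z
        refine ⟨⟨l, hl, ?_⟩, ?_⟩
        · rw [H50.PathGame.pay_neg, ← totalPayoff_eq, hl2]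
        · rintro _ ⟨l', hl', rfl⟩
          rw [H50.PathGame.pay_neg, ← totalPayoff_eq]
          exact neg_le_neg (h2 ⟨l', hl', rfl⟩))
      refine ⟨-v, ?_⟩
      refine hv.neg.congr fun n => ?_
      simp only [value]
      ring
    · have h := H50.PathGame.ae_all (P := P) (fun a : I × J => G.step a.1 a.2) G.shift
        G.measurePreserving (fun ω z a => G.payoff ω z a.1 a.2)
        (fun z a => G.measurable_payoff z a.1 a.2) (C := C)
        (fun ω z a => hC ω z a.1 a.2)
        (fun z ω z' a => by rw [G.stationary])
      filter_upwards [h] with ω hω z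
      obtain ⟨v, hv⟩ := hω z (fun n => G.totalValue ω n z) (fun n => by
        obtain ⟨⟨l, hl, hl2⟩, h2⟩ := isGreatest_total G ω n z
        refine ⟨⟨l, hl, ?_⟩, ?_⟩
        · rw [← totalPayoff_eq, hl2]
        · rintro _ ⟨l', hl', rfl⟩
          rw [← totalPayoff_eq]
          exact h2 ⟨l', hl', rfl⟩)
      exact ⟨v, hv⟩

end Pool.Agent.Results.MP_5b044e_pr.OnePlayerLimit
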